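import Mathlib
import Pool.Agent.Lib.MP_efdbfd_co.GridComb

/-!
MP_efdbfd_co, partial result: weak vertices of subgraphs of grids that contain a 4-cycle.
-/

namespace Pool.Agent.Results.MP_efdbfd_co.Grid

open SimpleGraph Pool.Agent.Lib.MP_efdbfd_co Pool.Agent.Lib.MP_efdbfd_co.Grid

/-- Let `L` be a subgraph of the `a × b` grid with girth 4.  Then `v` is weak iff `v` lies on every
4-cycle. -/
theorem result {W : Type} (L : SimpleGraph W) (a b : ℕ) (h : L ⊑ pathGraph a □ pathGraph b)
    (hg : L.girth = 4) (v : W) :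
    Weak L v ↔ ∀ (u : W) (c : L.Walk u u), c.IsCycle → c.length = 4 → v ∈ c.support := by
  have ha : ¬ L.IsAcyclic := fun h => by have := girth_eq_zero.2 h; omega
  obtain ⟨u, c, hc, hl⟩ := exists_girth_eq_length.2 ha
  refine ⟨fun w u c hc hl => by_contra fun hv => ?_, fun w => ⟨induce_ne_bot hc v, ?_⟩⟩
  · exact not_isLittleO_of_up_low (grid_up h) (low_four.mono (hl ▸ cycle_induce hc hv)) w.2
  · exact (grid_littleO (IsContained.trans ⟨Copy.induce L _⟩ h) (four_free w)).trans_isBigO
      (extr_low_isBigO (low_four.mono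
        ((cycleGraph_isContained_iff (by omega)).2 ⟨u, c, hc, hl ▸ hg⟩)))

end Pool.Agent.Results.MP_efdbfd_co.Grid
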