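import Mathlib
import Pool.Agent.Lib.MP_efdbfd_co.Final

/-!
MP_efdbfd_co, partial result: weak vertices of bipartite outerplanar graphs of girth 10.
-/

namespace Pool.Agent.Results.MP_efdbfd_co.Outerplanar

open SimpleGraph Pool.Agent.Lib.MP_efdbfd_co

/-- Let `L` be a finite bipartite outerplanar graph of girth 10.  Then `v` is weak iff `v` lies on
every 10-cycle. -/
theorem result {W : Type} [Finite W] (L : SimpleGraph W) (hb : L.IsBipartite)
    (h : Outerplanar L) (hg : L.girth = 10) (v : W) :
    Weak L v ↔ ∀ (a : W) (c : L.Walk a a), c.IsCycle → c.length = 10 → v ∈ c.support :=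
  hg ▸ weak_iff (g := 5) (by omega) hb hg (low_small (by omega)) v
    (fun he => up_of_outer (by omega) hb he h)
    fun he => up_of_outer (by omega) (bip_induce hb _) he (h.induce _)

end Pool.Agent.Results.MP_efdbfd_co.Outerplanar
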