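import Mathlib
import Pool.Agent.Lib.MP_efdbfd_co.Final

/-!
MP_efdbfd_co, partial result: weak vertices of bipartite graphs of treewidth at most two and girth 4 or 6.
-/

namespace Pool.Agent.Results.MP_efdbfd_co.TreewidthTwo

open SimpleGraph Pool.Agent.Lib.MP_efdbfd_co

/-- Let `L` be a finite bipartite graph of treewidth at most 2 and girth 4 or 6.  Then `v` is weak
iff `v` lies on every shortest cycle. -/
theorem result {W : Type} [Finite W] (L : SimpleGraph W) (hb : L.IsBipartite)
    (h : TreewidthLE L 2) (hg : L.girth = 4 ∨ L.girth = 6) (v : W) :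
    Weak L v ↔ ∀ (a : W) (c : L.Walk a a), c.IsCycle → c.length = L.girth → v ∈ c.support := by
  obtain ⟨g, h1, h2⟩ : ∃ g, (g = 2 ∨ g = 3) ∧ L.girth = 2 * g := ⟨L.girth / 2, by omega⟩
  exact weak_iff (by omega) hb h2 (low_small (by omega)) v
    (fun he => up_of_tw (by omega) (by omega) hb he h)
    fun he => up_of_tw (by omega) (by omega) (bip_induce hb _) he (h.induce _)

end Pool.Agent.Results.MP_efdbfd_co.TreewidthTwo
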